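import Pool.Agent.W2helper90.RT.Stm
import Pool.Agent.N303.SH.K6
import Pool.Agent.Helper477.Sph.HarmInv
import Pool.Agent.N537.RS.HDim

/-!
# Project RT, piece DENS: the harmonics are dense (helper72)
-/

set_option autoImplicit false

open MeasureTheory Set Filter Topology

namespace Pool.Agent.W2helper90.RT

namespace DENS

open MvPolynomial Pool.Agent.Helper477.HarmInv
open Pool.Agent.N537.RS (hdim Hpoly Lap)
open Pool.Agent.N303.SH (vC vC_apply xc poly_near mem_P S_norm)

variable {k : ℕ}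

/-- every homogeneous polynomial of degree `l + 2` is harmonic plus `|x|²` times a polynomial -/
theorem decomp (hk : 0 < k) (l : ℕ) {p : MvPolynomial (Fin k) ℝ}
    (hp : p ∈ homogeneousSubmodule (Fin k) ℝ (l + 2)) :
    ∃ h ∈ Hpoly k (l + 2), ∃ q ∈ homogeneousSubmodule (Fin k) ℝ l, p = h + rsq k * q := by
  have _i := finite_homogeneous (n := k) l
  let f : homogeneousSubmodule (Fin k) ℝ l →ₗ[ℝ] homogeneousSubmodule (Fin k) ℝ l :=
    { toFun := fun q => ⟨D k (rsq k * q.1), D_mem_homogeneous (rsq_mul_mem_homogeneous q.2)⟩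
      map_add' := fun a b => by
        apply Subtype.ext
        simp [mul_add]
      map_smul' := fun c a => by
        apply Subtype.ext
        simp }
  have hinj : Function.Injective f := by
    rw [injective_iff_map_eq_zero]
    intro q hq
    have h5 : D k (rsq k * q.1) = 0 := congrArg Subtype.val hq
    exact Subtype.ext (D_rsq_mul_eq_zero hk q.1 h5)
  obtain ⟨q, hq⟩ := (LinearMap.injective_iff_surjective.mp hinj) ⟨D k p, D_mem_homogeneous hp⟩
  have hq' : D k (rsq k * q.1) = D k p := congrArg Subtype.val hq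
  refine ⟨p - rsq k * q.1, ?_, q.1, q.2, by ring⟩
  refine Submodule.mem_inf.mpr ⟨?_, ?_⟩
  · exact Submodule.sub_mem _ hp (rsq_mul_mem_homogeneous q.2)
  · rw [Pool.Agent.N537.RS.HD.Lap_eq, LinearMap.mem_ker, map_sub, hq', sub_self]

theorem vC_rsq : (vC (rsq k) : C(S k, ℝ)) = 1 := by
  ext w
  rw [vC_apply]
  have h1 := S_norm (n := k) w
  have h2 : ‖(w : E k)‖ ^ 2 = 1 := by
    have h3 : ‖(w : E k)‖ = 1 := h1
    rw [h3]; norm_num
  rw [EuclideanSpace.norm_sq_eq] at h2
  simp only [rsq, map_sum, map_mul, eval_X, ContinuousMap.one_apply]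
  rw [← h2]
  refine Finset.sum_congr rfl fun i _ => ?_
  rw [Real.norm_eq_abs, sq_abs, sq]

theorem isH_zero (l : ℕ) : IsH k l (0 : C(S k, ℝ)) :=
  ⟨0, Submodule.zero_mem _, fun w => by simp⟩

theorem isH_add {l : ℕ} {e e' : C(S k, ℝ)} (h : IsH k l e) (h' : IsH k l e') :
    IsH k l (e + e') := by
  obtain ⟨p, hp, h1⟩ := h
  obtain ⟨q, hq, h2⟩ := h'
  exact ⟨p + q, Submodule.add_mem _ hp hq, fun w => by
    rw [ContinuousMap.add_apply, h1, h2, map_add]⟩

theorem isH_vC {l : ℕ} {p : MvPolynomial (Fin k) ℝ} (hp : p ∈ Hpoly k l) :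
    IsH k l (vC p : C(S k, ℝ)) :=
  ⟨p, hp, fun w => vC_apply p w⟩

/-- finite sums of harmonics -/
def FS (f : C(S k, ℝ)) : Prop :=
  ∃ (L : ℕ) (r : ℕ → C(S k, ℝ)), (∀ l, IsH k l (r l)) ∧ f = ∑ l ∈ Finset.range L, r l

theorem FS_add {f g : C(S k, ℝ)} (hf : FS f) (hg : FS g) : FS (f + g) := by
  obtain ⟨L, r, hr, rfl⟩ := hf
  obtain ⟨L', r', hr', rfl⟩ := hg
  refine ⟨max L L', fun l => (if l < L then r l else 0) + (if l < L' then r' l else 0),
    fun l => isH_add ?_ ?_, ?_⟩
  · split_ifs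
    · exact hr l
    · exact isH_zero l
  · split_ifs
    · exact hr' l
    · exact isH_zero l
  · rw [Finset.sum_add_distrib]
    congr 1
    · rw [← Finset.sum_filter]
      refine Finset.sum_congr ?_ fun _ _ => rfl
      ext l
      simp only [Finset.mem_range, Finset.mem_filter, lt_max_iff]
      tauto
    · rw [← Finset.sum_filter]
      refine Finset.sum_congr ?_ fun _ _ => rfl
      ext l
      simp only [Finset.mem_range, Finset.mem_filter, lt_max_iff]
      tauto

theorem FS_isH {l : ℕ} {e : C(S k, ℝ)} (h : IsH k l e) : FS e := by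
  refine ⟨l + 1, fun j => if j = l then e else 0, fun j => ?_, ?_⟩
  · show IsH k j (if j = l then e else 0)
    by_cases hj : j = l
    · rw [if_pos hj, hj]; exact h
    · rw [if_neg hj]; exact isH_zero j
  · rw [Finset.sum_ite_eq' (Finset.range (l + 1)) l fun _ => e]
    rw [if_pos (Finset.mem_range.mpr (Nat.lt_succ_self l))]

theorem FS_zero : FS (0 : C(S k, ℝ)) := ⟨0, fun _ => 0, fun l => isH_zero l, by simp⟩

theorem FS_sum {ι : Type} (s : Finset ι) (f : ι → C(S k, ℝ)) (h : ∀ i ∈ s, FS (f i)) :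
    FS (∑ i ∈ s, f i) := by
  classical
  induction s using Finset.induction_on with
  | empty => simpa using FS_zero
  | insert a s ha ih =>
    rw [Finset.sum_insert ha]
    exact FS_add (h a (Finset.mem_insert_self a s))
      (ih fun i hi => h i (Finset.mem_insert_of_mem hi))

theorem FS_homog (hk : 0 < k) (l : ℕ) : ∀ p ∈ homogeneousSubmodule (Fin k) ℝ l,
    FS (vC p : C(S k, ℝ)) := by
  induction l using Nat.strong_induction_on with
  | _ l ih =>
    intro p hp
    by_cases hl : l < 2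
    · refine FS_isH (isH_vC (l := l) (Submodule.mem_inf.mpr ⟨hp, ?_⟩))
      rw [Pool.Agent.N537.RS.HD.Lap_eq, LinearMap.mem_ker]
      exact D_eq_zero_of_homogeneous hl hp
    · obtain ⟨m, rfl⟩ : ∃ m, l = m + 2 := ⟨l - 2, by omega⟩
      obtain ⟨h, hh, q, hq, rfl⟩ := decomp hk m hp
      rw [map_add, map_mul, vC_rsq, one_mul]
      exact FS_add (FS_isH (isH_vC hh)) (ih m (by omega) q hq)

theorem FS_vC (hk : 0 < k) (p : MvPolynomial (Fin k) ℝ) : FS (vC p : C(S k, ℝ)) := by
  rw [← sum_homogeneousComponent p, map_sum]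
  exact FS_sum _ _ fun l _ => FS_homog hk l _ (homogeneousComponent_mem l p)

end DENS

/-- **The harmonics are dense.** -/
theorem t_DENS : S_DENS := by
  intro k hk f ε hε
  obtain ⟨N, g, hg, hfg⟩ := Pool.Agent.N303.SH.poly_near (n := k) f hε
  obtain ⟨p, -, rfl⟩ := Pool.Agent.N303.SH.mem_P.1 hg
  obtain ⟨L, r, hr, h1⟩ := DENS.FS_vC (k := k) (by omega) p
  refine ⟨L, r, hr, fun w => ?_⟩
  have h2 : |(f - Pool.Agent.N303.SH.vC p) w| ≤ ‖f - Pool.Agent.N303.SH.vC p‖ := by
    have := ContinuousMap.norm_coe_le_norm (f - Pool.Agent.N303.SH.vC p) w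
    rwa [Real.norm_eq_abs] at this
  have h3 : (f - Pool.Agent.N303.SH.vC p) w = f w - ∑ l ∈ Finset.range L, r l w := by
    rw [ContinuousMap.sub_apply, h1, ContinuousMap.sum_apply]
  rw [← h3]
  exact h2.trans hfg.le

end Pool.Agent.W2helper90.RT
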